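import Pool.Agent.Y787.CH.Main
import Pool.Agent.Y475.CH.TR
import Pool.Agent.Y329.CH.UN

/-!
# MP_2feb70_lc: heights of (well-quasi-ordered) ages, for every signature with unbounded arities
-/

namespace Pool.Agent.Results.MP_2feb70_lc.AnySignature

open Pool.Agent.Results.MP_2feb70_lc.CountableHeights
open Pool.Agent.Y787.CH

universe u

/-- **The heights of ages with well-founded `D(𝒜)` are exactly the countable ordinals, for every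
signature with unbounded arities, and also when only well-quasi-ordered ages are admitted.** -/
theorem result :
    (∀ α : Ordinal.{u},
      (∃ (I : Type u) (ar : I → ℕ) (𝒜 : Set (FinStr I ar)) (h𝒜 : IsAge 𝒜)
        (_ : IsWellFounded (SubAge 𝒜) Below), height 𝒜 h𝒜 = α) ↔ α < Ordinal.omega.{u} 1) ∧
    (∀ (I : Type u) (ar : I → ℕ), (∀ m, ∃ i, m ≤ ar i) → ∀ α : Ordinal.{u},
      ((∃ (𝒜 : Set (FinStr I ar)) (h𝒜 : IsAge 𝒜) (_ : IsWellFounded (SubAge 𝒜) Below),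
        height 𝒜 h𝒜 = α) ↔ α < Ordinal.omega.{u} 1) ∧
      ((∃ (𝒜 : Set (FinStr I ar)) (h𝒜 : IsAge 𝒜) (_ : IsWellFounded (SubAge 𝒜) Below),
        IsWqo 𝒜 ∧ Countable (SubAge 𝒜) ∧ height 𝒜 h𝒜 = α) ↔ α < Ordinal.omega.{u} 1)) ∧
    (∀ (I : Type u) (ar : I → ℕ), (∀ i, ar i ≤ 1) →
      ∀ (𝒜 : Set (FinStr I ar)) (h𝒜 : IsAge 𝒜) (_ : IsWellFounded (SubAge 𝒜) Below),
        height 𝒜 h𝒜 < Ordinal.omega0.{u} * Ordinal.omega0.{u}) := by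
  refine ⟨CountableHeights.result, ?_, Pool.Agent.Y329.CH.UN.un.{u}⟩
  intro I ar h α
  refine ⟨⟨?_, ?_⟩, ?_, ?_⟩
  · rintro ⟨𝒜, h𝒜, hwf, rfl⟩
    exact rank_lt_omega_one h𝒜 _
  · intro hα
    obtain ⟨𝒜, h𝒜, hwf, h1, _⟩ := attained Pool.Agent.Y475.CH.tr.{u} I ar h α hα
    exact ⟨𝒜, h𝒜, hwf, h1⟩
  · rintro ⟨𝒜, h𝒜, hwf, _, _, rfl⟩
    exact rank_lt_omega_one h𝒜 _
  · intro hα
    obtain ⟨𝒜, h𝒜, hwf, h1, h2⟩ := attained Pool.Agent.Y475.CH.tr.{u} I ar h α hα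
    exact ⟨𝒜, h𝒜, hwf, h2, countable_subages h𝒜 hwf h2, h1⟩

end Pool.Agent.Results.MP_2feb70_lc.AnySignature
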